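import Pool.Agent.Lib.MP_4318ff_ag.Spec.Defs

/-!
# The complete quadrangle is infinitesimally rigid
-/

set_option autoImplicit false

namespace Pool.Agent.Lib.MP_4318ff_ag

open scoped LinearAlgebra.Projectivization

variable (k : Type) [Field k]

/-- The six lines joining the points `(1:0:0), (0:1:0), (0:0:1), (1:1:1)`. -/
def cqL : Fin 6 → Fin 3 → k :=
  ![![1, 0, 0], ![0, 1, 0], ![0, 0, 1], ![1, -1, 0], ![0, 1, -1], ![1, 0, -1]]

/-- The complete quadrangle. -/
def CQ : Config k 6 where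
  ℓ := cqL k
  indep := by
    intro i j hij
    rw [LinearIndependent.pair_iff]
    intro a b h
    have h0 := congrFun h 0
    have h1 := congrFun h 1
    have h2 := congrFun h 2
    fin_cases i <;> fin_cases j <;> simp_all [cqL]
  span := by
    rw [eq_top_iff]
    intro v _
    have h : v = v 0 • cqL k 0 + v 1 • cqL k 1 + v 2 • cqL k 2 := by
      ext i
      fin_cases i <;> simp [cqL]
    rw [h]
    refine add_mem (add_mem ?_ ?_) ?_ <;>
      exact Submodule.smul_mem _ _ (Submodule.subset_span ⟨_, rfl⟩)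

variable {k}

private theorem cq_mem (v : Fin 3 → k) (hv : v ≠ 0) (a b c : Fin 6) (hab : a ≠ b) (hac : a ≠ c) (hbc : b ≠ c)
    (ha : cqL k a ⬝ᵥ v = 0) (hb : cqL k b ⬝ᵥ v = 0) (hc : cqL k c ⬝ᵥ v = 0) :
    Projectivization.mk k v hv ∈ (CQ k).M ∧ ∃ e : k, e ≠ 0 ∧ (Projectivization.mk k v hv).rep = e • v ∧
      a ∈ (CQ k).through (Projectivization.mk k v hv) ∧ b ∈ (CQ k).through (Projectivization.mk k v hv) ∧
      c ∈ (CQ k).through (Projectivization.mk k v hv) := by
  obtain ⟨e, he⟩ := Projectivization.exists_smul_eq_mk_rep k v hv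
  have he' : (Projectivization.mk k v hv).rep = (e : k) • v := he.symm
  have hm : ∀ i : Fin 6, cqL k i ⬝ᵥ v = 0 → i ∈ (CQ k).through (Projectivization.mk k v hv) := by
    intro i hi
    change cqL k i ⬝ᵥ (Projectivization.mk k v hv).rep = 0
    rw [he', dotProduct_smul, hi, smul_zero]
  refine ⟨?_, e, e.ne_zero, he', hm a ha, hm b hb, hm c hc⟩
  change 3 ≤ ((CQ k).through (Projectivization.mk k v hv)).ncard
  have h1 : (({a, b, c} : Finset (Fin 6)) : Set (Fin 6)) ⊆ (CQ k).through (Projectivization.mk k v hv) := by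
    intro i hi
    simp only [Finset.coe_insert, Finset.coe_singleton, Set.mem_insert_iff, Set.mem_singleton_iff] at hi
    rcases hi with rfl | rfl | rfl
    · exact hm _ ha
    · exact hm _ hb
    · exact hm _ hc
  have h2 : ({a, b, c} : Finset (Fin 6)).card = 3 := by
    rw [Finset.card_insert_of_notMem, Finset.card_pair hbc]
    simp [hab, hac]
  have h3 := Set.ncard_le_ncard h1 (Set.toFinite _)
  rw [Set.ncard_coe_finset, h2] at h3
  exact h3

theorem CQ_infRigid : (CQ k).InfRigid := by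
  intro β hβ
  have n0 : (![1, 0, 0] : Fin 3 → k) ≠ 0 := fun h => one_ne_zero (congrFun h 0)
  have n1 : (![0, 1, 0] : Fin 3 → k) ≠ 0 := fun h => one_ne_zero (congrFun h 1)
  have n2 : (![0, 0, 1] : Fin 3 → k) ≠ 0 := fun h => one_ne_zero (congrFun h 2)
  have n3 : (![1, 1, 1] : Fin 3 → k) ≠ 0 := fun h => one_ne_zero (congrFun h 0)
  have c0 : β 4 0 = β 1 0 - β 2 0 := by
    obtain ⟨hM, e, he, hrep, ha, hb, hc⟩ := cq_mem (![1, 0, 0] : Fin 3 → k) n0 1 2 4 (by decide) (by decide) (by decide)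
      (by simp [cqL]) (by simp [cqL]) (by simp [cqL])
    obtain ⟨w, hw⟩ := hβ _ hM
    have e1 := hw 1 ha
    have e2 := hw 2 hb
    have e4 := hw 4 hc
    rw [hrep] at e1 e2 e4
    simp [CQ, cqL, dotProduct, Fin.sum_univ_three] at e1 e2 e4
    have : e * (β 4 0 - (β 1 0 - β 2 0)) = 0 := by linear_combination e4 - e1 + e2
    rcases mul_eq_zero.1 this with h | h
    · exact absurd h he
    · exact sub_eq_zero.1 h
  have c1 : β 5 1 = β 0 1 - β 2 1 := by
    obtain ⟨hM, e, he, hrep, ha, hb, hc⟩ := cq_mem (![0, 1, 0] : Fin 3 → k) n1 0 2 5 (by decide) (by decide) (by decide)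
      (by simp [cqL]) (by simp [cqL]) (by simp [cqL])
    obtain ⟨w, hw⟩ := hβ _ hM
    have e1 := hw 0 ha
    have e2 := hw 2 hb
    have e4 := hw 5 hc
    rw [hrep] at e1 e2 e4
    simp [CQ, cqL, dotProduct, Fin.sum_univ_three] at e1 e2 e4
    have : e * (β 5 1 - (β 0 1 - β 2 1)) = 0 := by linear_combination e4 - e1 + e2
    rcases mul_eq_zero.1 this with h | h
    · exact absurd h he
    · exact sub_eq_zero.1 h
  have c2 : β 3 2 = β 0 2 - β 1 2 := by
    obtain ⟨hM, e, he, hrep, ha, hb, hc⟩ := cq_mem (![0, 0, 1] : Fin 3 → k) n2 0 1 3 (by decide) (by decide) (by decide)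
      (by simp [cqL]) (by simp [cqL]) (by simp [cqL])
    obtain ⟨w, hw⟩ := hβ _ hM
    have e1 := hw 0 ha
    have e2 := hw 1 hb
    have e4 := hw 3 hc
    rw [hrep] at e1 e2 e4
    simp [CQ, cqL, dotProduct, Fin.sum_univ_three] at e1 e2 e4
    have : e * (β 3 2 - (β 0 2 - β 1 2)) = 0 := by linear_combination e4 - e1 + e2
    rcases mul_eq_zero.1 this with h | h
    · exact absurd h he
    · exact sub_eq_zero.1 h
  have c3 : β 5 0 + β 5 1 + β 5 2 = (β 3 0 + β 3 1 + β 3 2) + (β 4 0 + β 4 1 + β 4 2) := by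
    obtain ⟨hM, e, he, hrep, ha, hb, hc⟩ := cq_mem (![1, 1, 1] : Fin 3 → k) n3 3 4 5 (by decide) (by decide) (by decide)
      (by simp [cqL]) (by simp [cqL]) (by simp [cqL])
    obtain ⟨w, hw⟩ := hβ _ hM
    have e1 := hw 3 ha
    have e2 := hw 4 hb
    have e4 := hw 5 hc
    rw [hrep] at e1 e2 e4
    simp [CQ, cqL, dotProduct, Fin.sum_univ_three] at e1 e2 e4
    have : e * ((β 5 0 + β 5 1 + β 5 2) - ((β 3 0 + β 3 1 + β 3 2) + (β 4 0 + β 4 1 + β 4 2))) = 0 := by
      linear_combination e4 - e1 - e2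
    rcases mul_eq_zero.1 this with h | h
    · exact absurd h he
    · exact sub_eq_zero.1 h
  let s3 : k := β 3 0 - β 0 0 + β 1 0
  let s1 : k := s3 + (β 3 1 - β 0 1 + β 1 1)
  let s4 : k := s1 + (β 4 1 - β 1 1 + β 2 1)
  let s2 : k := s4 + (β 4 2 - β 1 2 + β 2 2)
  let s5 : k := β 5 0 - β 0 0 + β 2 0
  refine ⟨Matrix.of ![![β 0 0, β 0 1, β 0 2], ![β 1 0, β 1 1 - s1, β 1 2], ![β 2 0, β 2 1, β 2 2 - s2]], ![0, s1, s2, s3, s4, s5], ?_⟩
  intro i
  ext j
  fin_cases i <;> fin_cases j <;>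
    simp [CQ, cqL, Matrix.vecMul, dotProduct, Fin.sum_univ_three, s1, s2, s3, s4, s5]
  all_goals first
    | linear_combination c0
    | linear_combination c1
    | linear_combination c2
    | linear_combination c3 + c2 + c0 - c1
    | ring1

end Pool.Agent.Lib.MP_4318ff_ag
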